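import Mathlib

/-!
# The edge marginals of the uniform `k`-component forests are not monotone in `k`

Let `G` be the graph with the 7 vertices `0, …, 6` consisting of the edge `e = 56`, the three paths `5 i 6`,
`i = 0, 1, 2`, and the path `5 4 3 6` (10 edges). It has 68 spanning trees, of which 24 contain `e`, and 168
forests with two components, of which 60 contain `e`, so that the marginal of `e` increases from
`UF₁ = 24/68 = 6/17` to `UF₂ = 60/168 = 5/14`.
-/

set_option autoImplicit false

namespace Pool.Agent.Results.MP_bb4aa0_pr.ForestMarginals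

open SimpleGraph

/-- The forests of `G` with exactly `k` connected components: the sets `s` of edges of `G` such that the
spanning subgraph with the set of edges `s` is acyclic and has exactly `k` connected components. -/
def forests {V : Type} (G : SimpleGraph V) (k : ℕ) : Set (Set (Sym2 V)) :=
  {s | s ⊆ G.edgeSet ∧ (fromEdgeSet s).IsAcyclic ∧ Nat.card (fromEdgeSet s).ConnectedComponent = k}

/-- The probability that the edge `e` belongs to the uniform random forest of `G` with `k` components. -/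
noncomputable def UF {V : Type} (G : SimpleGraph V) (k : ℕ) (e : Sym2 V) : ℚ :=
  ((forests G k ∩ {s | e ∈ s}).ncard : ℚ) / ((forests G k).ncard : ℚ)

/-! ### The algorithm -/

/-- The graph of a list of edges. -/
def gr : List (Fin 7 × Fin 7) → SimpleGraph (Fin 7)
  | [] => ⊥
  | p :: l => gr l ⊔ edge p.1 p.2

/-- Labels of the connected components; `none` if there is a cycle. -/
def run : List (Fin 7 × Fin 7) → Option (List ℕ)
  | [] => some [0, 1, 2, 3, 4, 5, 6]
  | p :: l =>
    match run l with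
    | none => none
    | some lab =>
      if lab.getD p.1.val 0 = lab.getD p.2.val 0 then none
      else some (lab.map fun t => if t = lab.getD p.2.val 0 then lab.getD p.1.val 0 else t)

theorem gr_adj (l : List (Fin 7 × Fin 7)) (x y : Fin 7) :
    (gr l).Adj x y ↔ x ≠ y ∧ ∃ p ∈ l, s(p.1, p.2) = s(x, y) := by
  induction l with
  | nil => simp [gr]
  | cons p l ih =>
    show (gr l ⊔ edge p.1 p.2).Adj x y ↔ _
    rw [sup_adj, ih, edge_adj]
    constructor
    · rintro (⟨h1, q, hq, h2⟩ | ⟨h1, h2⟩)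
      · exact ⟨h1, q, List.mem_cons_of_mem _ hq, h2⟩
      · refine ⟨h2, p, by simp, ?_⟩
        rcases h1 with ⟨rfl, rfl⟩ | ⟨rfl, rfl⟩
        · rfl
        · exact Sym2.eq_swap
    · rintro ⟨h1, q, hq, h2⟩
      rcases List.mem_cons.1 hq with rfl | hq
      · right
        refine ⟨?_, h1⟩
        rw [Sym2.eq_iff] at h2
        rcases h2 with ⟨a, b⟩ | ⟨a, b⟩
        · exact Or.inl ⟨a.symm, b.symm⟩
        · exact Or.inr ⟨b.symm, a.symm⟩
      · exact Or.inl ⟨h1, q, hq, h2⟩

/-- The state of the algorithm is correct. -/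
def Good (l : List (Fin 7 × Fin 7)) (lab : List ℕ) : Prop :=
  lab.length = 7 ∧ ∀ x y : Fin 7, (gr l).Reachable x y ↔ lab.getD x.val 0 = lab.getD y.val 0

theorem getD_map (lab : List ℕ) (h : lab.length = 7) (f : ℕ → ℕ) (x : Fin 7) :
    (lab.map f).getD x.val 0 = f (lab.getD x.val 0) := by
  have hx : x.val < lab.length := by omega
  rw [List.getD_eq_getElem _ _ (by simpa using hx), List.getD_eq_getElem _ _ hx, List.getElem_map]

theorem good_cons (p : Fin 7 × Fin 7) (l : List (Fin 7 × Fin 7)) (lab : List ℕ) (hp : p.1 ≠ p.2)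
    (h : Good l lab) :
    Good (p :: l) (lab.map fun t => if t = lab.getD p.2.val 0 then lab.getD p.1.val 0 else t) := by
  obtain ⟨h1, h2⟩ := h
  refine ⟨by simpa using h1, fun x y => ?_⟩
  rw [getD_map _ h1, getD_map _ h1]
  set L : Fin 7 → ℕ := fun x => lab.getD x.val 0 with hL
  have hr : ∀ x y, (gr l).Reachable x y ↔ L x = L y := h2
  show (gr l ⊔ edge p.1 p.2).Reachable x y ↔
    (if L x = L p.2 then L p.1 else L x) = (if L y = L p.2 then L p.1 else L y)
  have up : ∀ a b, (gr l).Reachable a b → (gr l ⊔ edge p.1 p.2).Reachable a b := fun a b hab =>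
    hab.mono le_sup_left
  have hedge : (gr l ⊔ edge p.1 p.2).Reachable p.1 p.2 :=
    Adj.reachable (by rw [sup_adj, edge_adj]; exact Or.inr ⟨Or.inl ⟨rfl, rfl⟩, hp⟩)
  constructor
  · intro hxy
    obtain ⟨w⟩ := hxy
    induction w with
    | nil => rfl
    | @cons a b c hab _ ih =>
      rw [← ih]
      rw [sup_adj, edge_adj] at hab
      rcases hab with hab | ⟨⟨rfl, rfl⟩ | ⟨rfl, rfl⟩, -⟩
      · rw [(hr a b).1 hab.reachable]
      · simp
      · simp
  · intro hxy
    by_cases hx : L x = L p.2 <;> by_cases hy : L y = L p.2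
    · exact up _ _ ((hr x y).2 (hx.trans hy.symm))
    · rw [if_pos hx, if_neg hy] at hxy
      exact ((up _ _ ((hr x p.2).2 hx)).trans hedge.symm).trans (up _ _ ((hr _ _).2 hxy))
    · rw [if_neg hx, if_pos hy] at hxy
      exact ((up _ _ ((hr x p.1).2 hxy)).trans hedge).trans (up _ _ ((hr _ _).2 hy.symm))
    · rw [if_neg hx, if_neg hy] at hxy
      exact up _ _ ((hr x y).2 hxy)

/-- No loops and no repeated edges. -/
def Clean (l : List (Fin 7 × Fin 7)) : Prop :=
  (∀ p ∈ l, p.1 ≠ p.2) ∧ l.Pairwise fun p q => s(p.1, p.2) ≠ s(q.1, q.2)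

theorem run_spec (l : List (Fin 7 × Fin 7)) (hl : Clean l) :
    (∀ lab, run l = some lab → (gr l).IsAcyclic ∧ Good l lab) ∧ (run l = none → ¬ (gr l).IsAcyclic) := by
  induction l with
  | nil =>
    refine ⟨fun lab h => ?_, fun h => by simp [run] at h⟩
    have : lab = [0, 1, 2, 3, 4, 5, 6] := by simpa [run] using h.symm
    subst this
    refine ⟨isAcyclic_bot, rfl, fun x y => ?_⟩
    show (⊥ : SimpleGraph (Fin 7)).Reachable x y ↔ _
    rw [reachable_bot]
    revert x y
    decide
  | cons p l ih =>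
    obtain ⟨hl1, hl2⟩ := hl
    rw [List.pairwise_cons] at hl2
    have ih := ih ⟨fun q hq => hl1 q (List.mem_cons_of_mem _ hq), hl2.2⟩
    have hp : p.1 ≠ p.2 := hl1 p (by simp)
    have hnadj : ¬ (gr l).Adj p.1 p.2 := by
      rw [gr_adj]
      rintro ⟨-, q, hq, h⟩
      exact hl2.1 q hq h.symm
    rcases hrun : run l with _ | lab
    · have h1 := ih.2 hrun
      refine ⟨fun lab h => by simp [run, hrun] at h, fun _ h => h1 (h.anti le_sup_left)⟩
    · obtain ⟨h1, h2⟩ := ih.1 lab hrun
      by_cases hc : lab.getD p.1.val 0 = lab.getD p.2.val 0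
      · refine ⟨fun lab h => by simp [run, hrun] at h; tauto, fun _ h => ?_⟩
        have h3 := (isAcyclic_sup_fromEdgeSet_iff.1 h).2 ((h2.2 _ _).2 hc)
        rcases h3 with h3 | h3
        · exact hp h3
        · exact hnadj h3
      · refine ⟨fun lab' h => ?_, fun h => by simp [run, hrun] at h; tauto⟩
        have e : run (p :: l) = some (lab.map fun t =>
            if t = lab.getD p.2.val 0 then lab.getD p.1.val 0 else t) := by
          simp only [run, hrun, if_neg hc]
        rw [e] at h
        obtain rfl := Option.some.inj h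
        refine ⟨?_, good_cons p l lab hp h2⟩
        exact isAcyclic_sup_fromEdgeSet_iff.2 ⟨h1, fun h3 => absurd ((h2.2 _ _).1 h3) hc⟩

/-- The number of different labels. -/
def numLab (lab : List ℕ) : ℕ := lab.dedup.length

theorem card_comp (l : List (Fin 7 × Fin 7)) (lab : List ℕ) (h : Good l lab) :
    Nat.card (gr l).ConnectedComponent = numLab lab := by
  classical
  obtain ⟨h1, h2⟩ := h
  let f : (gr l).ConnectedComponent → ℕ :=
    ConnectedComponent.lift (fun x => lab.getD x.val 0) fun v w p _ => (h2 v w).1 p.reachable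
  have hf : Function.Injective f := by
    intro a b
    refine ConnectedComponent.ind₂ (fun x y hxy => ?_) a b
    exact ConnectedComponent.sound ((h2 x y).2 hxy)
  have hr : Set.range f = (lab.toFinset : Set ℕ) := by
    ext t
    simp only [Set.mem_range, List.coe_toFinset, Set.mem_ofPred_eq]
    constructor
    · rintro ⟨a, rfl⟩
      refine ConnectedComponent.ind (fun x => ?_) a
      show lab.getD x.val 0 ∈ lab
      rw [List.getD_eq_getElem _ _ (by omega)]
      exact List.getElem_mem _
    · intro ht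
      obtain ⟨i, hi, rfl⟩ := List.getElem_of_mem ht
      refine ⟨(gr l).connectedComponentMk ⟨i, by omega⟩, ?_⟩
      show lab.getD i 0 = _
      rw [List.getD_eq_getElem _ _ hi]
  rw [← Nat.card_range_of_injective hf, hr, Nat.card_coe_set_eq, Set.ncard_coe_finset]
  rfl

/-- Test for forests with `k` components. -/
def isForest (k : ℕ) (l : List (Fin 7 × Fin 7)) : Bool :=
  match run l with
  | none => false
  | some lab => decide (numLab lab = k)

theorem connected_iff (l : List (Fin 7 × Fin 7)) :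
    (gr l).Connected ↔ Nat.card (gr l).ConnectedComponent = 1 := by
  rw [Nat.card_eq_one_iff_unique]
  constructor
  · intro h
    exact ⟨h.preconnected.subsingleton_connectedComponent, ⟨(gr l).connectedComponentMk 0⟩⟩
  · rintro ⟨h, -⟩
    refine { preconnected := fun x y => ?_, nonempty := ⟨0⟩ }
    exact ConnectedComponent.exact (Subsingleton.elim _ _)

theorem isForest_iff (k : ℕ) (l : List (Fin 7 × Fin 7)) (hl : Clean l) :
    isForest k l = true ↔ (gr l).IsAcyclic ∧ Nat.card (gr l).ConnectedComponent = k := by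
  rcases h : run l with _ | lab
  · have := (run_spec l hl).2 h
    simp [isForest, h, this]
  · obtain ⟨h1, h2⟩ := (run_spec l hl).1 lab h
    rw [card_comp l lab h2]
    simp [isForest, h, h1]

/-! ### The graph -/

/-- The edges. -/
def E : List (Fin 7 × Fin 7) :=
  [(5, 6), (0, 5), (0, 6), (1, 5), (1, 6), (2, 5), (2, 6), (3, 6), (3, 4), (4, 5)]

/-- The graph: the edge `56`, the paths `5 i 6` (`i = 0, 1, 2`) and `5 4 3 6`. -/
def G : SimpleGraph (Fin 7) := gr E

/-- The set of edges of a list. -/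
def toSet (l : List (Fin 7 × Fin 7)) : Set (Sym2 (Fin 7)) := {e | ∃ p ∈ l, s(p.1, p.2) = e}

theorem E_clean : Clean E := by
  refine ⟨by decide, by decide⟩

theorem clean_sublist (l : List (Fin 7 × Fin 7)) (h : l.Sublist E) : Clean l :=
  ⟨fun p hp => E_clean.1 p (h.subset hp), E_clean.2.sublist h⟩

theorem fromEdgeSet_toSet (l : List (Fin 7 × Fin 7)) : fromEdgeSet (toSet l) = gr l := by
  ext x y
  rw [fromEdgeSet_adj, gr_adj]
  simp only [toSet, Set.mem_ofPred_eq]
  tauto

theorem mem_edgeSet_G (e : Sym2 (Fin 7)) : e ∈ G.edgeSet ↔ e ∈ toSet E := by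
  induction e with
  | _ x y =>
    rw [mem_edgeSet, G, gr_adj]
    simp only [toSet, Set.mem_ofPred_eq]
    refine ⟨fun h => h.2, fun h => ⟨?_, h⟩⟩
    obtain ⟨p, hp, h⟩ := h
    rintro rfl
    have := E_clean.1 p hp
    rw [Sym2.eq_iff] at h
    rcases h with ⟨a, b⟩ | ⟨a, b⟩ <;> exact this (a.trans b.symm)

theorem toSet_injOn : Set.InjOn toSet {l | l.Sublist E} := by
  intro l1 h1 l2 h2 h
  have key : ∀ l : List (Fin 7 × Fin 7), l.Sublist E → ∀ p ∈ E, (p ∈ l ↔ s(p.1, p.2) ∈ toSet l) := by
    intro l hl p hp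
    refine ⟨fun h => ⟨p, h, rfl⟩, ?_⟩
    rintro ⟨q, hq, hqp⟩
    have hqE := hl.subset hq
    by_contra hne
    have hpq : q ≠ p := fun h => hne (h ▸ hq)
    have hpw := E_clean.2
    have : ∀ a ∈ E, ∀ b ∈ E, a ≠ b → s(a.1, a.2) ≠ s(b.1, b.2) := by decide
    exact this q hqE p hp hpq hqp
  have hnd : E.Nodup := by decide
  have e : ∀ l : List (Fin 7 × Fin 7), l.Sublist E → l = E.filter (· ∈ l) := by
    intro l hl
    have h3 : l.Sublist (E.filter (· ∈ l)) := by
      have := hl.filter (· ∈ l)
      rwa [List.filter_eq_self.2 (by simp)] at this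
    refine h3.eq_of_length_le ?_
    have hsub : (E.filter (· ∈ l)) ⊆ l := by
      intro a ha
      simpa using (List.mem_filter.1 ha).2
    exact (List.subperm_of_subset (hnd.filter _) hsub).length_le
  rw [e l1 h1, e l2 h2]
  refine List.filter_congr fun p hp => ?_
  have := key l1 h1 p hp
  have h' := key l2 h2 p hp
  rw [h] at this
  rw [decide_eq_decide]
  exact this.trans h'.symm

theorem exists_sublist (s : Set (Sym2 (Fin 7))) (hs : s ⊆ G.edgeSet) :
    ∃ l, l.Sublist E ∧ toSet l = s := by
  classical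
  refine ⟨E.filter fun p => s(p.1, p.2) ∈ s, List.filter_sublist, ?_⟩
  ext e
  constructor
  · rintro ⟨p, hp, rfl⟩
    simpa using (List.mem_filter.1 hp).2
  · intro he
    obtain ⟨p, hp, rfl⟩ := (mem_edgeSet_G e).1 (hs he)
    exact ⟨p, List.mem_filter.2 ⟨hp, by simpa using he⟩, rfl⟩

theorem toSet_subset (l : List (Fin 7 × Fin 7)) (hl : l.Sublist E) : toSet l ⊆ G.edgeSet := by
  rintro e ⟨p, hp, rfl⟩
  rw [mem_edgeSet_G]
  exact ⟨p, hl.subset hp, rfl⟩

/-- Counting. -/
theorem count (P : SimpleGraph (Fin 7) → Prop) (A : Set (Set (Sym2 (Fin 7))))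
    (check : List (Fin 7 × Fin 7) → Bool)
    (h : ∀ l, l.Sublist E → (check l = true ↔ P (gr l) ∧ toSet l ∈ A)) :
    ({s | s ⊆ G.edgeSet ∧ P (fromEdgeSet s)} ∩ A).ncard = (E.sublists.filter check).length := by
  classical
  have e : {s | s ⊆ G.edgeSet ∧ P (fromEdgeSet s)} ∩ A =
      toSet '' ((E.sublists.filter check).toFinset : Set (List (Fin 7 × Fin 7))) := by
    ext s
    constructor
    · rintro ⟨⟨h1, h2⟩, h3⟩
      obtain ⟨l, hl, rfl⟩ := exists_sublist s h1
      refine ⟨l, ?_, rfl⟩
      rw [fromEdgeSet_toSet] at h2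
      simp only [List.coe_toFinset, Set.mem_ofPred_eq, List.mem_filter, List.mem_sublists]
      exact ⟨hl, (h l hl).2 ⟨h2, h3⟩⟩
    · rintro ⟨l, hl, rfl⟩
      simp only [List.coe_toFinset, Set.mem_ofPred_eq, List.mem_filter, List.mem_sublists] at hl
      have := (h l hl.1).1 hl.2
      refine ⟨⟨toSet_subset l hl.1, ?_⟩, this.2⟩
      rw [fromEdgeSet_toSet]
      exact this.1
  have hinj : Set.InjOn toSet ((E.sublists.filter check).toFinset : Set (List (Fin 7 × Fin 7))) := by
    refine toSet_injOn.mono fun l hl => ?_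
    simp only [List.coe_toFinset, Set.mem_ofPred_eq, List.mem_filter, List.mem_sublists] at hl
    exact hl.1
  have hnd : (E.sublists.filter check).Nodup := by
    refine List.Nodup.filter _ (List.nodup_sublists.2 ?_)
    decide
  rw [e, hinj.ncard_image, Set.ncard_coe_finset, List.toFinset_card_of_nodup hnd]

theorem mem_toSet (l : List (Fin 7 × Fin 7)) (hl : l.Sublist E) :
    s((5 : Fin 7), (6 : Fin 7)) ∈ toSet l ↔ ((5, 6) : Fin 7 × Fin 7) ∈ l := by
  constructor
  · rintro ⟨p, hp, h⟩
    have : ∀ a ∈ E, s(a.1, a.2) = s((5 : Fin 7), (6 : Fin 7)) → a = (5, 6) := by decide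
    rw [← this p (hl.subset hp) h]
    exact hp
  · intro h
    exact ⟨_, h, rfl⟩

theorem card_of (k N : ℕ) (h : (E.sublists.filter (isForest k)).length = N) :
    (forests G k).ncard = N := by
  have := count (fun H => H.IsAcyclic ∧ Nat.card H.ConnectedComponent = k) Set.univ (isForest k)
    (fun l hl => by rw [isForest_iff k l (clean_sublist l hl)]; simp)
  rw [Set.inter_univ] at this
  exact this.trans h

theorem card_e_of (k N : ℕ) (h : (E.sublists.filter fun l =>
      isForest k l && decide (((5, 6) : Fin 7 × Fin 7) ∈ l)).length = N) :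
    (forests G k ∩ {s | s((5 : Fin 7), (6 : Fin 7)) ∈ s}).ncard = N := by
  have := count (fun H => H.IsAcyclic ∧ Nat.card H.ConnectedComponent = k)
    {s | s((5 : Fin 7), (6 : Fin 7)) ∈ s}
    (fun l => isForest k l && decide (((5, 6) : Fin 7 × Fin 7) ∈ l))
    (fun l hl => by
      rw [Bool.and_eq_true, isForest_iff k l (clean_sublist l hl), decide_eq_true_iff,
        Set.mem_ofPred_eq, mem_toSet l hl])
  exact this.trans h

theorem G_connected : G.Connected := by
  have hc : Clean [(5, 6), (0, 5), (1, 5), (2, 5), (3, 6), (4, 5)] :=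
    clean_sublist _ (by decide)
  have h1 : isForest 1 [(5, 6), (0, 5), (1, 5), (2, 5), (3, 6), (4, 5)] = true := by decide +kernel
  refine ((connected_iff _).2 ((isForest_iff 1 _ hc).1 h1).2).mono ?_
  intro x y hxy
  rw [gr_adj] at hxy
  rw [G, gr_adj]
  obtain ⟨h2, p, hp, h3⟩ := hxy
  have hsub : ∀ p ∈ [((5, 6) : Fin 7 × Fin 7), (0, 5), (1, 5), (2, 5), (3, 6), (4, 5)], p ∈ E := by
    decide
  exact ⟨h2, p, hsub p hp, h3⟩

theorem G_edges : G.edgeSet.ncard = 10 := by
  have h : G.edgeSet = ((E.map fun p => s(p.1, p.2)).toFinset : Set (Sym2 (Fin 7))) := by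
    ext e
    rw [mem_edgeSet_G]
    simp [toSet]
  rw [h, Set.ncard_coe_finset, List.toFinset_card_of_nodup (by decide)]
  rfl

/-- **Disproof of Q1.** There are a finite connected graph `G` and an edge `e` of `G` for which the probability
that `e` belongs to the uniform forest with `k` components is not a non-increasing function of `k`: it is
`6/17` for `k = 1` and `5/14 > 6/17` for `k = 2`. -/
theorem result :
    (∃ (V : Type) (_ : Fintype V) (G : SimpleGraph V) (e : Sym2 V), G.Connected ∧ Fintype.card V = 7 ∧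
      G.edgeSet.ncard = 10 ∧ e ∈ G.edgeSet ∧ UF G 1 e = 6 / 17 ∧ UF G 2 e = 5 / 14) ∧
    ¬ ∀ (V : Type) (_ : Fintype V) (G : SimpleGraph V) (e : Sym2 V), G.Connected → e ∈ G.edgeSet →
      ∀ k : ℕ, 1 ≤ k → k < Fintype.card V → UF G (k + 1) e ≤ UF G k e := by
  have h1 : UF G 1 s((5 : Fin 7), (6 : Fin 7)) = 6 / 17 := by
    rw [UF, card_e_of 1 24 (by decide +kernel), card_of 1 68 (by decide +kernel)]
    norm_num
  have h2 : UF G 2 s((5 : Fin 7), (6 : Fin 7)) = 5 / 14 := by
    rw [UF, card_e_of 2 60 (by decide +kernel), card_of 2 168 (by decide +kernel)]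
    norm_num
  have he : s((5 : Fin 7), (6 : Fin 7)) ∈ G.edgeSet := by
    rw [mem_edgeSet_G]
    exact ⟨(5, 6), by decide, rfl⟩
  refine ⟨⟨Fin 7, inferInstance, G, s((5 : Fin 7), (6 : Fin 7)), G_connected, by simp, G_edges, he, h1, h2⟩,
    fun h => ?_⟩
  have h3 := h (Fin 7) inferInstance G s((5 : Fin 7), (6 : Fin 7)) G_connected he 1 le_rfl (by simp)
  rw [h1, h2] at h3
  norm_num at h3

end Pool.Agent.Results.MP_bb4aa0_pr.ForestMarginals
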